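import Pool.Agent.H76.SD.Targets2

/-!
# SETH for convex programming: a refutation on one cell
-/

namespace Pool.Agent.H76.CX

open Finset

theorem ce2 : T_CE2 := by
  intro X _ C dim size kap K A b pt w w0 I H de hb hK hS
  rcases C.eq_empty_or_nonempty with rfl | hne
  · simp
  set l : X → ℝ := fun x => ∑ k, w k * pt x k + w0 with hl
  have hn : (0 : ℝ) < C.card := by exact_mod_cast hne.card_pos
  have key : ∀ η : ℝ, 0 < η →
      de * (∑ x ∈ C, H x + η * C.card) ≤ ∑ x ∈ C, H x * l x + η * ∑ x ∈ C, l x := by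
    intro η hη
    obtain ⟨he, hhe⟩ : ∃ he : ℝ, he = ∑ x ∈ C, H x + η * C.card := ⟨_, rfl⟩
    have hhe' : he = ∑ x ∈ C, (H x + η) := by
      rw [hhe, sum_add_distrib]; simp [mul_comm]
    have hpos : 0 < he := by
      rw [hhe]
      have : 0 < η * C.card := mul_pos hη hn
      linarith
    have hy : ∀ i ∈ I, (fun a => ∑ k, A i a k * ((∑ x ∈ C, (H x + η) * pt x k) / he) + b i a)
        ∈ K i := by
      intro i hi
      have h0 := hK η hη (by rw [← hhe']; exact hpos) i hi
      convert h0 using 2 with a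
      rw [← hhe', eq_div_iff hpos.ne', add_mul, sum_mul]
      have e2 : ∀ k, A i a k * ((∑ x ∈ C, (H x + η) * pt x k) / he) * he =
          ∑ x ∈ C, (H x + η) * (A i a k * pt x k) := by
        intro k
        rw [mul_assoc, div_mul_cancel₀ _ hpos.ne', mul_sum]
        refine sum_congr rfl fun x _ => ?_
        ring
      simp_rw [e2]
      rw [sum_comm, hhe', mul_sum, ← sum_add_distrib]
      refine sum_congr rfl fun x _ => ?_
      rw [← mul_sum]
      ring
    have h1 := hb _ hy
    have e3 : ∑ k, w k * ((∑ x ∈ C, (H x + η) * pt x k) / he) + w0 =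
        he⁻¹ * (∑ x ∈ C, H x * l x + η * ∑ x ∈ C, l x) := by
      have e4 : ∑ x ∈ C, H x * l x + η * ∑ x ∈ C, l x =
          (∑ k, w k * (∑ x ∈ C, (H x + η) * pt x k)) + he * w0 := by
        rw [mul_sum, ← sum_add_distrib, hhe', sum_mul]
        simp_rw [mul_sum]
        rw [sum_comm, ← sum_add_distrib]
        refine sum_congr rfl fun x _ => ?_
        rw [hl]
        simp only
        rw [← add_mul, mul_add, mul_sum]
        congr 1
        refine sum_congr rfl fun k _ => ?_
        ring
      rw [e4, mul_add, ← mul_assoc, inv_mul_cancel₀ hpos.ne', one_mul, mul_sum]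
      congr 1
      refine sum_congr rfl fun k _ => ?_
      field_simp
    rw [e3, ← div_eq_inv_mul, le_div_iff₀ hpos] at h1
    rw [← hhe]
    exact h1
  refine le_of_forall_pos_le_add fun ε hε => ?_
  set c : ℝ := ∑ x ∈ C, l x - de * C.card with hc
  have hc1 : 0 < |c| + 1 := by positivity
  have h2 := key (ε / (|c| + 1)) (by positivity)
  have h3 : ε / (|c| + 1) * c ≤ ε := by
    have h4 : ε / (|c| + 1) * c ≤ ε / (|c| + 1) * (|c| + 1) := by
      refine mul_le_mul_of_nonneg_left ?_ (by positivity)
      have := le_abs_self c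
      linarith
    rwa [div_mul_cancel₀ _ hc1.ne'] at h4
  have h5 : ε / (|c| + 1) * c = ε / (|c| + 1) * ∑ x ∈ C, l x - de * (ε / (|c| + 1) * C.card) := by
    rw [hc]; ring
  nlinarith [h2, h3, h5]

end Pool.Agent.H76.CX
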