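import Pool.Agent.H76.SD.Targets2

/-!
# SETH for convex programming: the two cases together
-/

namespace Pool.Agent.H76.CX

open Finset

theorem concl_mono {ε : ℝ} {c c' n s t M : ℕ} {P : Fin M → Relax n} (h : c ≤ c')
    (hC : Concl ε c n s t M P) : Concl ε c' n s t M P := by
  obtain ⟨w, m, phi, h1, h2, h3, h4, h5, h6⟩ := hC
  have hs : c * s ≤ c' * s := Nat.mul_le_mul_right s h
  exact ⟨w, m, phi, h1, h2.trans (Nat.pow_le_pow_right (by norm_num) hs), h3.trans hs, h4, h5, h6⟩

theorem fu (hRA : T_RA) (hRB : T_RB) : T_FU := by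
  intro ε hε
  obtain ⟨c1, n1, hA⟩ := hRA ε hε
  obtain ⟨c2, n2, hB⟩ := hRB ε hε
  refine ⟨max c1 c2, max n1 n2, ?_⟩
  intro n s t hn hns hcs hct M P hM hsize hkap
  have e1 : c1 * s ≤ n := (Nat.mul_le_mul_right s (le_max_left _ _)).trans hcs
  have e2 : c2 * s ≤ n := (Nat.mul_le_mul_right s (le_max_right _ _)).trans hcs
  have e3 : c1 * t ≤ n := (Nat.mul_le_mul_right t (le_max_left _ _)).trans hct
  by_cases hc : n ≤ s ^ 2 ∧ t ≤ s
  · exact concl_mono (le_max_right c1 c2) (hB n s t ((le_max_right _ _).trans hn) hns e2 hc.1 hc.2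
      M P hM hsize fun j i => (hkap j i).imp_right fun h => h.1)
  · refine concl_mono (le_max_left c1 c2) (hA n s t ((le_max_left _ _).trans hn) hns e1 e3
      M P hM hsize fun j i => ?_)
    rcases hkap j i with h | h
    · exact h
    · exact absurd h.2 hc

end Pool.Agent.H76.CX
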